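import Pool.Agent.Lib.MP_7c844e_an.Space

namespace Pool.Agent.Results.MP_7c844e_an.StrictDaugavet

/-- There is a strictly convex real Banach space whose unit sphere contains a Daugavet point. -/
theorem result :
    ∃ (X : Type) (_ : NormedAddCommGroup X) (_ : NormedSpace ℝ X),
      CompleteSpace X ∧
      (∀ x y : X, ‖x‖ = 1 → ‖y‖ = 1 → ‖x + y‖ = 2 → x = y) ∧
      ∃ x : X, ‖x‖ = 1 ∧
        ∀ f : StrongDual ℝ X, ‖f‖ = 1 → ∀ α : ℝ, 0 < α → ∀ ε : ℝ, 0 < ε →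
          ∃ y : X, ‖y‖ ≤ 1 ∧ f y > 1 - α ∧ ‖x - y‖ > 2 - ε :=
  ⟨Lib.MP_7c844e_an.X, inferInstance, inferInstance, inferInstance, Lib.MP_7c844e_an.strict,
    _, Lib.MP_7c844e_an.norm_one', Lib.MP_7c844e_an.daugavet⟩

end Pool.Agent.Results.MP_7c844e_an.StrictDaugavet
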